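import Mathlib

set_option autoImplicit false

namespace Pool.Agent.Results.MP_ca5fbf_co.ColumnQueens

open Finset

/-- `r₃(m)`: the largest size of a subset of `{1, …, m}` with no three-term progression. -/
def r3 (m : ℕ) : ℕ := addRothNumber (Icc 1 m)

/-- `A(n) = n - r₃(⌈n/3⌉)`. -/
def A (n : ℕ) : ℤ := n - r3 ((n + 2) / 3)

/-- `B(n) = n - max_{k + l = ⌈n/2⌉} (r₃(⌈k/2⌉) + r₃(⌈l/2⌉))`. -/
def B (n : ℕ) : ℤ :=
  n - ((antidiagonal ((n + 1) / 2)).sup fun p => r3 ((p.1 + 1) / 2) + r3 ((p.2 + 1) / 2) : ℕ)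

theorem r3_eq (m : ℕ) : r3 m = rothNumberNat m := by
  rw [r3, ← Ico_add_one_right_eq_Icc, addRothNumber_Ico, Nat.add_sub_cancel]

theorem bound (h : ∀ n, 0 < n → B n ≤ A n) (j : ℕ) :
    ∀ m : ℕ, (r3 m : ℝ) ≤ (3 / 4) ^ j * m + (2 * 2 ^ j - 2) := by
  induction j with
  | zero =>
    intro m
    have : (r3 m : ℝ) ≤ m := by exact_mod_cast r3_eq m ▸ rothNumberNat_le m
    simpa using this
  | succ j ih =>
    intro m
    have h1 : (1 : ℝ) ≤ 2 ^ j := one_le_pow₀ (by norm_num)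
    have h2 : (3 / 4 : ℝ) ^ j ≤ 1 := pow_le_one₀ (by norm_num) (by norm_num)
    have h3 : (0 : ℝ) < (3 / 4) ^ j := by positivity
    rcases m.eq_zero_or_pos with rfl | hm
    · rw [r3_eq, rothNumberNat_zero, pow_succ 2]
      simp only [Nat.cast_zero, mul_zero]
      linarith
    have k := h (3 * m) (by omega)
    obtain ⟨⟨a, b⟩, k1, k2⟩ := exists_mem_eq_sup (antidiagonal ((3 * m + 1) / 2))
      ⟨(0, (3 * m + 1) / 2), by simp⟩
      fun p => r3 ((p.1 + 1) / 2) + r3 ((p.2 + 1) / 2)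
    rw [A, B, k2, show (3 * m + 2) / 3 = m by omega] at k
    rw [HasAntidiagonal.mem_antidiagonal] at k1
    dsimp only at k k1
    have k3 : (r3 m : ℝ) ≤ r3 ((a + 1) / 2) + r3 ((b + 1) / 2) := by
      exact_mod_cast (by omega : r3 m ≤ r3 ((a + 1) / 2) + r3 ((b + 1) / 2))
    have k4 : (4 : ℝ) * (((a + 1) / 2 : ℕ) + ((b + 1) / 2 : ℕ)) ≤ 3 * m + 5 := by
      exact_mod_cast (by omega : 4 * ((a + 1) / 2 + (b + 1) / 2) ≤ 3 * m + 5)
    have k5 := ih ((a + 1) / 2)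
    have k6 := ih ((b + 1) / 2)
    have k7 := mul_le_mul_of_nonneg_left k4 h3.le
    rw [pow_succ, pow_succ]
    nlinarith

/-- The conjecture `A(n) ≥ B(n)` fails for some positive `n`. -/
theorem result : ∃ n, 0 < n ∧ A n < B n := by
  by_contra h
  push Not at h
  have h1 := bound h 900 (3 ^ 900)
  have h2 := Behrend.roth_lower_bound (N := 3 ^ 900)
  rw [← r3_eq] at h2
  have l3 : Real.log 3 ≤ 2 := (Real.log_le_sub_one_of_pos (by norm_num)).trans (by norm_num)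
  have h3 : √(Real.log ((3 ^ 900 : ℕ) : ℝ)) ≤ 43 := by
    rw [Real.sqrt_le_iff, Nat.cast_pow, Real.log_pow]
    push_cast
    constructor <;> linarith
  have h4 : ((1 : ℝ) / 3) ^ 172 ≤ Real.exp (-4 * √(Real.log ((3 ^ 900 : ℕ) : ℝ))) := by
    refine le_trans ?_ (Real.exp_le_exp.2 (show ((172 : ℕ) : ℝ) * (-1) ≤ _ by
      rw [Nat.cast_ofNat (n := 172)]; linarith))
    rw [Real.exp_nat_mul]
    refine pow_le_pow_left₀ (by norm_num) ?_ _
    rw [Real.exp_neg, one_div]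
    exact inv_anti₀ (Real.exp_pos 1) (Real.exp_one_lt_d9.le.trans (by norm_num))
  have h5 := (mul_le_mul_of_nonneg_left h4 (Nat.cast_nonneg _)).trans (h2.trans h1)
  have h6 := (Rat.cast_lt (K := ℝ)).2 (by decide +kernel :
    (3 / 4 : ℚ) ^ 900 * 3 ^ 900 + (2 * 2 ^ 900 - 2) < 3 ^ 900 * (1 / 3) ^ 172)
  simp only [Rat.cast_add, Rat.cast_mul, Rat.cast_sub, Rat.cast_pow, Rat.cast_div, Rat.cast_ofNat,
    Rat.cast_one] at h6
  rw [Nat.cast_pow, Nat.cast_ofNat] at h5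
  exact absurd h5 (not_le.2 h6)

end Pool.Agent.Results.MP_ca5fbf_co.ColumnQueens
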